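import Mathlib
import Pool.Agent.Lib.MP_b1ee0a_an.Defs
import Pool.Agent.Lib.MP_b1ee0a_an.Good
import Pool.Agent.Lib.MP_b1ee0a_an.Flow
import Pool.Agent.Lib.MP_b1ee0a_an.Vanish
import Pool.Agent.Lib.MP_b1ee0a_an.Represent

set_option autoImplicit false

namespace Pool.Agent.Results.MP_b1ee0a_an.JordanDecomposition

open MeasureTheory Filter Topology Complex ComplexConjugate
open Pool.Agent.Lib.MP_b1ee0a_an

lemma aemeasurable_piecewise {X : Type*} [MeasurableSpace X] {μ : Measure X} (t : Set X)
    (ht : NullMeasurableSet t μ) (c : ℂ) (F : X → ℂ) (h1 : ∀ x ∈ t, F x = c) (h2 : ∀ x ∉ t, F x = 0) :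
    AEMeasurable F μ := by
  have h3 : AEMeasurable (t.indicator fun _ => c) μ := aemeasurable_const.indicator₀ ht
  refine h3.congr (ae_of_all _ fun x => ?_)
  by_cases hx : x ∈ t
  · rw [Set.indicator_of_mem hx, h1 x hx]
  · rw [Set.indicator_of_notMem hx, h2 x hx]

/-- A null measurable function with values in `ℂ` is almost everywhere measurable. -/
lemma aemeasurable_of_nullMeasurable {X : Type*} [MeasurableSpace X] {μ : Measure X} {f : X → ℂ}
    (hf : NullMeasurable f μ) : AEMeasurable f μ := by
  have hf' : Measurable (fun x : NullMeasurableSpace X μ => f x) := hf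
  obtain ⟨g, hg⟩ := hf'.stronglyMeasurable
  have key : ∀ s : SimpleFunc (NullMeasurableSpace X μ) ℂ, AEMeasurable (fun x : X => s x) μ := by
    intro s
    induction s using SimpleFunc.induction with
    | @const c t ht =>
      refine aemeasurable_piecewise (X := X) (μ := μ) t ht c _ (fun x hx => ?_) (fun x hx => ?_)
      · simp only [SimpleFunc.coe_piecewise]
        exact (if_pos hx).trans rfl
      · simp only [SimpleFunc.coe_piecewise]
        exact (if_neg hx).trans rfl
    | add _ h1 h2 => exact h1.add h2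
  exact aemeasurable_of_tendsto_metrizable_ae atTop (fun n => key (g n)) (ae_of_all _ hg)

variable {A : EReal}

lemma measurableSet_Ival (A : EReal) : MeasurableSet (Ival A) := by
  have h : Measurable fun l : ℝ => ((|l| : ℝ) : EReal) := by fun_prop
  exact measurableSet_lt h measurable_const

lemma isOpen_Ival (A : EReal) : IsOpen (Ival A) := by
  have h : Continuous fun l : ℝ => ((|l| : ℝ) : EReal) := continuous_coe_real_ereal.comp continuous_abs
  exact isOpen_lt h continuous_const

lemma lebesgue_of_aemeasurable {F : ℝ → ℂ} (hF : AEMeasurable F volume) :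
    LebesgueMeasurable (fun l : Ival A => F l) := by
  have h1 : AEMeasurable F (volume.restrict (Ival A)) := hF.restrict
  rw [aemeasurable_restrict_iff_comap_subtype (measurableSet_Ival A)] at h1
  exact h1.nullMeasurable

/-- The transform of a non-negative density against a measure carried by the closure of the line. -/
lemma memP_of_density {μ : Measure G} 
    (hP : ∀ P : G → Prop, MeasurableSet {x | P x} → (∀ x, P (jK x)) → ∀ᵐ x ∂μ, P x)
    {h : G → ℝ} (hh : Integrable h μ) (hh0 : ∀ x, 0 ≤ h x) :
    MemP (fun l : Ival A => F μ (fun x => (h x : ℂ)) l) := by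
  have hfun : ∀ c : Ival A →₀ ℂ, func (fun l : Ival A => F μ (fun x => (h x : ℂ)) l) c =
      ∫ x, (c.sum fun l a => a * ev (l : ℝ) x) * (h x : ℂ) ∂μ := by
    intro c
    simp only [func, Finsupp.sum, F]
    simp_rw [Finset.sum_mul]
    rw [integral_finsetSum]
    · refine Finset.sum_congr rfl fun l _ => ?_
      rw [← integral_const_mul]
      refine integral_congr_ae (ae_of_all _ fun x => ?_)
      show c l * (ev (l : ℝ) x * (h x : ℂ)) = c l * ev (l : ℝ) x * (h x : ℂ)
      rw [mul_assoc]
    · intro l _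
      have := (integrable_ev_mul (hh.ofReal (𝕜 := ℂ)) (l : ℝ)).const_mul (c l)
      refine this.congr (ae_of_all _ fun x => ?_)
      show c l * (ev (l : ℝ) x * (h x : ℂ)) = c l * ev (l : ℝ) x * (h x : ℂ)
      rw [mul_assoc]
  have hmeas : ∀ c : Ival A →₀ ℂ, Measurable fun x => c.sum fun l a => a * ev (l : ℝ) x := by
    intro c
    simp only [Finsupp.sum]
    refine Finset.measurable_sum _ fun l _ => ?_
    exact (measurable_ev (l : ℝ)).const_mul _
  refine ⟨⟨∫ x, h x ∂μ, fun c => ?_⟩, fun c hc => ?_⟩
  · rw [hfun]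
    have h1 : ∀ᵐ x ∂μ, ‖(c.sum fun l a => a * ev (l : ℝ) x)‖ ≤ ⨆ t : ℝ, ‖poly c t‖ := by
      refine hP _ (measurableSet_le (hmeas c).norm measurable_const) fun x => ?_
      rw [← LK_apply]
      exact norm_LK_le c x
    have h2 : ‖∫ x, (c.sum fun l a => a * ev (l : ℝ) x) * (h x : ℂ) ∂μ‖ ≤
        ∫ x, (⨆ t : ℝ, ‖poly c t‖) * h x ∂μ := by
      refine norm_integral_le_of_norm_le (hh.const_mul _) ?_
      filter_upwards [h1] with x hx
      rw [norm_mul, Complex.norm_real, Real.norm_of_nonneg (hh0 x)]
      exact mul_le_mul_of_nonneg_right hx (hh0 x)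
    rw [integral_const_mul] at h2
    linarith
  · rw [hfun]
    have h1 : ∀ᵐ x ∂μ, 0 ≤ (c.sum fun l a => a * ev (l : ℝ) x).re ∧
        (c.sum fun l a => a * ev (l : ℝ) x).im = 0 := by
      refine hP _ ?_ fun x => ?_
      · exact (measurableSet_le measurable_const (Complex.measurable_re.comp (hmeas c))).inter
          (measurableSet_eq_fun (Complex.measurable_im.comp (hmeas c)) measurable_const)
      · rw [← LK_apply]
        exact LK_nonneg c hc x
    have h2 : ∫ x, (c.sum fun l a => a * ev (l : ℝ) x) * (h x : ℂ) ∂μ =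
        ∫ x, (((c.sum fun l a => a * ev (l : ℝ) x).re * h x : ℝ) : ℂ) ∂μ := by
      refine integral_congr_ae ?_
      filter_upwards [h1] with x hx
      apply Complex.ext
      · simp [hx.2]
      · simp [hx.2]
    rw [h2, integral_complex_ofReal, Complex.ofReal_re, Complex.ofReal_im]
    refine ⟨integral_nonneg_of_ae ?_, rfl⟩
    filter_upwards [h1] with x hx
    exact mul_nonneg hx.1 (hh0 x)

/-- **Affirmative answer.** Let `0 < A ≤ ∞` and let `f : (-A, A) → ℂ` be a Hermitian, Lebesgue
measurable element of `R_A`. Then `f = f₊ - f₋` with Lebesgue measurable `f₊, f₋ ∈ 𝔓_A`. -/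
theorem result (A : EReal) (_hA : 0 < A) (f : Ival A → ℂ) (hf : MemR f) (hfm : LebesgueMeasurable f)
    (hherm : ∀ l, f (opp l) = conj (f l)) :
    ∃ fp fm : Ival A → ℂ, (MemP fp ∧ LebesgueMeasurable fp) ∧ (MemP fm ∧ LebesgueMeasurable fm) ∧
      ∀ l, f l = fp l - fm l := by
  obtain ⟨μp, μm, hμp, hμm, hfrep, hPp, hPm⟩ := represent f hf hherm
  -- the sum of the two measures and the densities
  let μ : Measure G := μp + μm
  have hP : ∀ P : G → Prop, MeasurableSet {x | P x} → (∀ x, P (jK x)) → ∀ᵐ x ∂μ, P x := by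
    intro P h1 h2
    rw [ae_add_measure_iff]
    exact ⟨hPp P h1 h2, hPm P h1 h2⟩
  have hacp : μp ≪ μ := Measure.absolutelyContinuous_of_le (Measure.le_add_right le_rfl)
  have hacm : μm ≪ μ := Measure.absolutelyContinuous_of_le (Measure.le_add_left le_rfl)
  let s : G → ℝ := fun x => (μp.rnDeriv μ x).toReal - (μm.rnDeriv μ x).toReal
  have hsm : Measurable s := (Measure.measurable_rnDeriv _ _).ennreal_toReal.sub
    (Measure.measurable_rnDeriv _ _).ennreal_toReal
  have hsi : Integrable s μ := Measure.integrable_toReal_rnDeriv.sub Measure.integrable_toReal_rnDeriv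
  have hevi : ∀ (σ : Measure G) [IsFiniteMeasure σ] (l : ℝ), Integrable (ev l) σ := fun σ _ l =>
    (integrable_const (1 : ℝ)).mono' (measurable_ev l).aestronglyMeasurable
      (ae_of_all _ fun x => (norm_ev l x).le)
  have hfF : ∀ l : Ival A, f l = F μ (fun x => (s x : ℂ)) l := by
    intro l
    rw [hfrep l]
    simp only [F]
    have e1 : ∀ x, ev (l : ℝ) x * ((s x : ℝ) : ℂ) =
        (μp.rnDeriv μ x).toReal • ev (l : ℝ) x - (μm.rnDeriv μ x).toReal • ev (l : ℝ) x := by
      intro x
      simp only [s, Complex.real_smul]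
      push_cast; ring
    simp_rw [e1]
    rw [integral_sub ((integrable_rnDeriv_smul_iff hacp).2 (hevi _ _))
      ((integrable_rnDeriv_smul_iff hacm).2 (hevi _ _)), integral_rnDeriv_smul hacp,
      integral_rnDeriv_smul hacm]
  -- maximal good set
  obtain ⟨D, hD, hDg, hDmax⟩ := exists_maximal μ
  have hscm : Measurable (fun x => (s x : ℂ)) := Complex.measurable_ofReal.comp hsm
  have hsci : Integrable (fun x => (s x : ℂ)) μ := hsi.ofReal
  have hg1 : Good μ (fun x => D.indicator 1 x * (s x : ℂ)) := hDg.of_indicator hscm hsci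
  -- the remaining part vanishes
  let ν : Measure G := μ.restrict Dᶜ
  have hνF : ∀ (h : G → ℂ) (l : ℝ), F ν h l = F μ (fun x => Dᶜ.indicator 1 x * h x) l := by
    intro h l
    simp only [F]
    show ∫ x in Dᶜ, _ ∂μ = _
    rw [← integral_indicator hD.compl]
    refine integral_congr_ae (ae_of_all _ fun x => ?_)
    by_cases hx : x ∈ Dᶜ
    · simp only [Set.indicator_of_mem hx, Pi.one_apply, one_mul]
    · simp only [Set.indicator_of_notMem hx, zero_mul, mul_zero]
  have hν0 : ∀ C, MeasurableSet C → Good ν (C.indicator 1) → ν C = 0 := by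
    intro C hC H
    have h1 : Good μ ((C ∩ Dᶜ).indicator 1) := by
      refine ⟨(integrable_const (1 : ℂ)).indicator (hC.inter hD.compl), ?_⟩
      have e : F μ ((C ∩ Dᶜ).indicator 1) = F ν (C.indicator 1) := by
        funext l
        rw [hνF]
        simp only [F]
        refine integral_congr_ae (ae_of_all _ fun x => ?_)
        simp only
        by_cases h1 : x ∈ C <;> by_cases h2 : x ∈ D <;> simp [h1, h2]
      rw [e]; exact H.2
    have h2 := hDmax _ (hC.inter hD.compl) h1
    show μ.restrict Dᶜ C = 0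
    rw [Measure.restrict_apply hC]
    have e : (C ∩ Dᶜ) \ D = C ∩ Dᶜ := by
      ext x
      simp only [Set.mem_sdiff, Set.mem_inter_iff, Set.mem_compl_iff]
      tauto
    rwa [e] at h2
  have hsplit : ∀ l : ℝ, F μ (fun x => (s x : ℂ)) l =
      F μ (fun x => D.indicator 1 x * (s x : ℂ)) l + F ν (fun x => (s x : ℂ)) l := by
    intro l
    rw [hνF]
    simp only [F]
    have hi : Integrable (fun x => Dᶜ.indicator (1 : G → ℂ) x * (s x : ℂ)) μ := by
      refine hsci.bdd_mul (c := 1) (measurable_one.indicator hD.compl).aestronglyMeasurable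
        (ae_of_all _ fun x => ?_)
      by_cases hx : x ∈ Dᶜ
      · rw [Set.indicator_of_mem hx]; simp
      · rw [Set.indicator_of_notMem hx]; simp
    rw [← integral_add (integrable_ev_mul hg1.1 l) (integrable_ev_mul hi l)]
    refine integral_congr_ae (ae_of_all _ fun x => ?_)
    simp only
    by_cases h2 : x ∈ D <;> simp [h2]
  have hνmeas : AEMeasurable (F ν (fun x => (s x : ℂ))) (volume.restrict (Ival A)) := by
    have h1 : AEMeasurable (F μ (fun x => (s x : ℂ))) (volume.restrict (Ival A)) := by
      rw [aemeasurable_restrict_iff_comap_subtype (measurableSet_Ival A)]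
      have e : (F μ (fun x => (s x : ℂ))) ∘ ((↑) : Ival A → ℝ) = f := by
        funext l
        exact (hfF l).symm
      rw [e]
      exact aemeasurable_of_nullMeasurable hfm
    have e : F ν (fun x => (s x : ℂ)) = fun l => F μ (fun x => (s x : ℂ)) l -
        F μ (fun x => D.indicator 1 x * (s x : ℂ)) l := by
      funext l
      rw [hsplit l]; ring
    rw [e]
    exact h1.sub hg1.2.restrict
  have hvan := vanish ν hν0 hscm (hsci.mono_measure Measure.restrict_le_self) (isOpen_Ival A) hνmeas
  -- the two parts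
  let hp : G → ℝ := fun x => D.indicator 1 x * max (s x) 0
  let hm : G → ℝ := fun x => D.indicator 1 x * max (-s x) 0
  have hind0 : ∀ x, (0 : ℝ) ≤ D.indicator 1 x := fun x => Set.indicator_nonneg (fun _ _ => zero_le_one) x
  have hindm : Measurable (D.indicator (1 : G → ℝ)) := measurable_one.indicator hD
  have hbd : ∀ x, ‖D.indicator (1 : G → ℝ) x‖ ≤ 1 := by
    intro x
    by_cases hx : x ∈ D
    · rw [Set.indicator_of_mem hx]; simp
    · rw [Set.indicator_of_notMem hx]; simp
  have hpi : Integrable hp μ := (hsi.pos_part).bdd_mul (c := 1) hindm.aestronglyMeasurable (ae_of_all _ hbd)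
  have hmi : Integrable hm μ := (hsi.neg_part).bdd_mul (c := 1) hindm.aestronglyMeasurable (ae_of_all _ hbd)
  have hgood : ∀ (r : G → ℝ), Measurable r → Integrable r μ →
      Good μ (fun x => ((D.indicator 1 x * r x : ℝ) : ℂ)) := by
    intro r hr hri
    refine (hDg.of_indicator (Complex.measurable_ofReal.comp hr) hri.ofReal).congr (ae_of_all _ fun x => ?_)
    simp only [Function.comp]
    by_cases hx : x ∈ D <;> simp [hx]
  have hgp := hgood _ (hsm.max measurable_const) hsi.pos_part
  have hgm := hgood _ (hsm.neg.max measurable_const) hsi.neg_part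
  refine ⟨fun l => F μ (fun x => (hp x : ℂ)) l, fun l => F μ (fun x => (hm x : ℂ)) l,
    ⟨memP_of_density hP hpi (fun x => mul_nonneg (hind0 x) (le_max_right _ _)),
      lebesgue_of_aemeasurable hgp.2⟩,
    ⟨memP_of_density hP hmi (fun x => mul_nonneg (hind0 x) (le_max_right _ _)),
      lebesgue_of_aemeasurable hgm.2⟩, fun l => ?_⟩
  rw [hfF l, hsplit l, hvan l l.2, add_zero]
  simp only [F]
  have hi1 : Integrable (fun x => ev (l : ℝ) x * (hp x : ℂ)) μ :=
    integrable_ev_mul (hpi.ofReal (𝕜 := ℂ)) (l : ℝ)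
  have hi2 : Integrable (fun x => ev (l : ℝ) x * (hm x : ℂ)) μ :=
    integrable_ev_mul (hmi.ofReal (𝕜 := ℂ)) (l : ℝ)
  rw [← integral_sub hi1 hi2]
  refine integral_congr_ae (ae_of_all _ fun x => ?_)
  simp only [hp, hm]
  by_cases hx : x ∈ D
  · simp only [Set.indicator_of_mem hx, Pi.one_apply, one_mul]
    rw [← mul_sub]
    congr 1
    rw [← Complex.ofReal_sub]
    congr 1
    rcases le_total 0 (s x) with h | h
    · rw [max_eq_left h, max_eq_right (by linarith)]; ring
    · rw [max_eq_right h, max_eq_left (by linarith)]; ring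
  · simp only [Set.indicator_of_notMem hx]
    simp

end Pool.Agent.Results.MP_b1ee0a_an.JordanDecomposition
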